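import Mathlib
import Pool.Agent.H32.N6.TargetsB
import Pool.Agent.H34.N6.Lib

/-!
# Row BUD: the determinant of the second form is a unit
-/

set_option autoImplicit false

open Polynomial NumberField IsDedekindDomain Matrix Pool.Agent.H32.QC Pool.Agent.H34.N6 Pool.Agent.H32.N6

namespace Pool.Agent.H65.N6B

/-- the integral elements -/
def O (F : Type) [NormedField F] [IsUltrametricDist F] : Subring F where
  carrier := {x | ‖x‖ ≤ 1}
  mul_mem' {a b} ha hb := by
    show ‖a * b‖ ≤ 1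
    rw [norm_mul]
    exact mul_le_one₀ ha (norm_nonneg _) hb
  one_mem' := by
    show ‖(1 : F)‖ ≤ 1
    rw [norm_one]
  add_mem' {a b} ha hb := (IsUltrametricDist.norm_add_le_max a b).trans (max_le ha hb)
  zero_mem' := by
    show ‖(0 : F)‖ ≤ 1
    rw [norm_zero]
    exact zero_le_one
  neg_mem' {a} ha := by
    show ‖-a‖ ≤ 1
    rwa [norm_neg]

section

variable {F : Type} [NormedField F] [IsUltrametricDist F]

theorem mem_O {x : F} : x ∈ O F ↔ ‖x‖ ≤ 1 := Iff.rfl

/-- determinants of integral matrices are integral -/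
theorem det_int {n : ℕ} {A : Matrix (Fin n) (Fin n) F} (h : ∀ i j, ‖A i j‖ ≤ 1) : ‖A.det‖ ≤ 1 := by
  rw [← mem_O, Matrix.det_apply]
  refine Subring.sum_mem _ fun σ _ => ?_
  have h1 : ∏ i, A (σ i) i ∈ O F := Subring.prod_mem _ fun i _ => h _ _
  rcases Int.units_eq_one_or (Equiv.Perm.sign σ) with hs | hs
  · rw [hs, one_smul]
    exact h1
  · rw [hs]
    simp only [Units.neg_smul, one_smul]
    exact (O F).neg_mem h1

/-- lifting integral polynomials -/
theorem lift_int {g : F[X]} (h : ∀ i, ‖g.coeff i‖ ≤ 1) : ∃ g' : (O F)[X], g'.map (O F).subtype = g := by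
  have : g ∈ Polynomial.lifts (O F).subtype := by
    rw [Polynomial.lifts_iff_coeff_lifts]
    intro n
    exact ⟨⟨g.coeff n, h n⟩, rfl⟩
  exact (Polynomial.mem_lifts _).1 this

/-- remainders of integral polynomials are integral -/
theorem mod_int {P g : F[X]} (hP : P.Monic) (hPi : ∀ i, ‖P.coeff i‖ ≤ 1) (hg : ∀ i, ‖g.coeff i‖ ≤ 1) (k : ℕ) :
    ‖(g %ₘ P).coeff k‖ ≤ 1 := by
  obtain ⟨g', rfl⟩ := lift_int hg
  obtain ⟨P', rfl⟩ := lift_int hPi
  have hP' : P'.Monic := by
    have hinj : Function.Injective (O F).subtype := Subtype.val_injective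
    exact Polynomial.monic_of_injective hinj hP
  rw [← Polynomial.map_modByMonic _ hP', coeff_map]
  exact ((g' %ₘ P').coeff k).2

omit [IsUltrametricDist F] in
theorem mul_X_int {g : F[X]} (h : ∀ i, ‖g.coeff i‖ ≤ 1) (n i : ℕ) : ‖(g * X ^ n).coeff i‖ ≤ 1 := by
  rw [coeff_mul_X_pow']
  split_ifs
  · exact h _
  · rw [norm_zero]
    exact zero_le_one

end

/-- the Hankel matrix has determinant of norm one -/
theorem hankel {F : Type} [NormedField F] {P : F[X]} (hP : P.Monic) (h7 : P.natDegree = 7) :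
    ‖(Matrix.of fun i j : Fin 7 => lam P (X ^ ((i : ℕ) + (j : ℕ)))).det‖ = 1 := by
  set H : Matrix (Fin 7) (Fin 7) F := Matrix.of fun i j : Fin 7 => lam P (X ^ ((i : ℕ) + (j : ℕ))) with hH
  have h1 := Matrix.det_permute' (Fin.revPerm : Equiv.Perm (Fin 7)) H
  have h2 : (H.submatrix id (Fin.revPerm : Equiv.Perm (Fin 7))).det = 1 := by
    rw [Matrix.det_of_isLowerTriangular]
    · refine Finset.prod_eq_one fun i _ => ?_
      rw [Matrix.submatrix_apply, hH, Matrix.of_apply, id, Fin.revPerm_apply, Fin.val_rev]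
      have h3 : (i : ℕ) + (7 - ((i : ℕ) + 1)) = P.natDegree - 1 := by omega
      rw [h3]
      exact lam_X_pow_self hP (by omega)
    · intro i j hij
      have hij' : i < j := hij
      rw [Matrix.submatrix_apply, hH, Matrix.of_apply, id, Fin.revPerm_apply, Fin.val_rev]
      refine lam_X_pow hP ?_
      have := Fin.lt_def.1 hij'
      omega
  rw [h2] at h1
  have h4 := congrArg norm h1
  rw [norm_one, norm_mul] at h4
  rcases Int.units_eq_one_or (Equiv.Perm.sign (Fin.revPerm : Equiv.Perm (Fin 7))) with hs | hs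
  · rw [hs] at h4
    simpa using h4.symm
  · rw [hs] at h4
    simpa using h4.symm

theorem pf_BUD (hBIN : T_BIN) : T_BUD := by
  intro F _ _ P D hP h7 hPi hDi hab
  obtain ⟨a, b, ha, hb, hab⟩ := hab
  set M : Matrix (Fin 7) (Fin 7) F := fun k j => ((b * X ^ (j : ℕ)) %ₘ P).coeff k with hM
  have h1 : gA P D 0 * M = Matrix.of fun i j : Fin 7 => lam P (X ^ ((i : ℕ) + (j : ℕ))) := by
    ext i j
    rw [Matrix.mul_apply, Matrix.of_apply]
    set q : F[X] := (b * X ^ (j : ℕ)) %ₘ P with hq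
    have hqd : q.natDegree ≤ 6 := by
      have := Polynomial.natDegree_modByMonic_lt (b * X ^ (j : ℕ)) hP (by
        intro h
        rw [h, natDegree_one] at h7
        omega)
      rw [← hq] at this
      omega
    have e1 : D * X ^ (i : ℕ) * q = ∑ k : Fin 7, C (q.coeff k) * (D * X ^ ((i : ℕ) + (k : ℕ) + 0)) := by
      conv_lhs => rw [← pol_cf hqd]
      unfold pol cf
      rw [Finset.mul_sum]
      refine Finset.sum_congr rfl fun k _ => ?_
      rw [add_zero, pow_add]
      ring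
    have e2 : lam P (D * X ^ (i : ℕ) * q) = ∑ k : Fin 7, gA P D 0 i k * M k j := by
      rw [e1, lam_sum]
      refine Finset.sum_congr rfl fun k _ => ?_
      rw [lam_C_mul, mul_comm]
      rfl
    rw [← e2]
    refine lam_congr hP ⟨-(D * X ^ (i : ℕ) * ((b * X ^ (j : ℕ)) /ₘ P)) - a * X ^ ((i : ℕ) + (j : ℕ)), ?_⟩
    have e3 := Polynomial.modByMonic_add_div (b * X ^ (j : ℕ)) P
    rw [← hq] at e3
    have e4 : q = b * X ^ (j : ℕ) - P * ((b * X ^ (j : ℕ)) /ₘ P) := by linear_combination e3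
    rw [e4, pow_add]
    have e5 : b * D = 1 - a * P := by rw [← hab]; ring
    linear_combination (X ^ (i : ℕ) * X ^ (j : ℕ)) * e5
  have h2 := congrArg (fun A => ‖Matrix.det A‖) h1
  simp only [Matrix.det_mul, norm_mul] at h2
  rw [hankel hP h7] at h2
  have h3 : ‖(gA P D 0).det‖ ≤ 1 := det_int fun i j => hBIN F P _ hP hPi (mul_X_int hDi _)
  have h4 : ‖M.det‖ ≤ 1 := det_int fun i j => mod_int hP hPi (mul_X_int hb _) _
  refine le_antisymm h3 ?_
  by_contra h5
  push Not at h5
  have h6 : ‖(gA P D 0).det‖ * ‖M.det‖ ≤ ‖(gA P D 0).det‖ * 1 := by gcongr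
  linarith

end Pool.Agent.H65.N6B
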